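import Pool.Agent.W420.NS.Stm

/-!
# Project NS: soundness of the join and of the closing join
-/

set_option autoImplicit false

namespace Pool.Agent.W597.NS

open Pool.Agent.W420.NS

/-- every element of the first list is paired -/
theorem zip_left {α β : Type} : ∀ (l : List α) (m : List β), l.length = m.length → ∀ x ∈ l,
    ∃ y, (x, y) ∈ l.zip m := by
  intro l
  induction l with
  | nil => intro m _ x hx; simp at hx
  | cons a l ih =>
    intro m hm x hx
    cases m with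
    | nil => simp at hm
    | cons b m =>
      rw [List.zip_cons_cons]
      rcases List.mem_cons.1 hx with h | h
      · exact ⟨b, by rw [h]; exact List.mem_cons_self⟩
      · obtain ⟨y, hy⟩ := ih m (by simpa using hm) x h
        exact ⟨y, List.mem_cons_of_mem _ hy⟩

theorem zip_right {α β : Type} : ∀ (l : List α) (m : List β), l.length = m.length → ∀ y ∈ m,
    ∃ x, (x, y) ∈ l.zip m := by
  intro l
  induction l with
  | nil =>
    intro m hm y hy
    have : m = [] := List.length_eq_zero_iff.1 (by simpa using hm.symm)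
    rw [this] at hy
    simp at hy
  | cons a l ih =>
    intro m hm y hy
    cases m with
    | nil => simp at hy
    | cons b m =>
      rw [List.zip_cons_cons]
      rcases List.mem_cons.1 hy with h | h
      · exact ⟨a, by rw [h]; exact List.mem_cons_self⟩
      · obtain ⟨x, hx⟩ := ih m (by simpa using hm) y h
        exact ⟨x, List.mem_cons_of_mem _ hx⟩

theorem mem_zip_drop {α β : Type} : ∀ (s : ℕ) (l : List α) (m : List β) (p : α × β),
    p ∈ (l.drop s).zip (m.drop s) → p ∈ l.zip m := by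
  intro s
  induction s with
  | zero => intro l m p hp; simpa using hp
  | succ s ih =>
    intro l m p hp
    cases l with
    | nil => simp at hp
    | cons a l =>
      cases m with
      | nil => simp at hp
      | cons b m =>
        rw [List.zip_cons_cons]
        apply List.mem_cons_of_mem
        apply ih
        simpa using hp

theorem length_eq (A B : Pole) (s : ℕ) (a b : St) (ha : a.length = A.D.length)
    (hb : b.length = B.D.length) : (mrg s a b).length = (A.join B s).D.length := by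
  simp [mrg, Pole.join, ha, hb]

/-- colours and labels of the dangling edges of the join -/
theorem keyAux (A B : Pole) (s : ℕ) (c : (A.V ⊕ B.V) → Fin 3 → ℕ) (a b : St)
    (ha : Cov A (fun x => c (Sum.inl x)) a) (hb : Cov B (fun x => c (Sum.inr x)) b)
    (lab : (A.V ⊕ B.V) → ℕ)
    (h1 : ∀ x ∈ A.D.zip a, isT x.2.1 = true → lab (Sum.inl x.1.1) = unite (prs s a b) x.2.2)
    (h2 : ∀ x ∈ B.D.zip b, isT x.2.1 = true →
      lab (Sum.inr x.1.1) = unite (prs s a b) (x.2.2 + 8)) :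
    ∀ p ∈ ((A.D.drop s).map (lmap (W := A.V ⊕ B.V) Sum.inl) ++
      (B.D.drop s).map (lmap (W := A.V ⊕ B.V) Sum.inr)).zip (mrg s a b), c p.1.1 p.1.2 = p.2.1 ∧
      (isT p.2.1 = true → lab p.1.1 = p.2.2) := by
  intro p hp
  have e : ((A.D.drop s).map (lmap (W := A.V ⊕ B.V) Sum.inl) ++
      (B.D.drop s).map (lmap (W := A.V ⊕ B.V) Sum.inr)).zip (mrg s a b) =
      (((A.D.drop s).zip (a.drop s)).map (Prod.map (lmap (W := A.V ⊕ B.V) Sum.inl)
        (fun x : ℕ × ℕ => (x.1, unite (prs s a b) x.2)))) ++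
      (((B.D.drop s).zip (b.drop s)).map (Prod.map (lmap (W := A.V ⊕ B.V) Sum.inr)
        (fun x : ℕ × ℕ => (x.1, unite (prs s a b) (x.2 + 8))))) := by
    rw [← List.zip_map, ← List.zip_map]
    apply List.zip_append
    rw [List.length_map, List.length_map, List.length_drop, List.length_drop, ha.1]
  rw [e, List.mem_append] at hp
  rcases hp with hp | hp
  · obtain ⟨⟨d, y⟩, hq, rfl⟩ := List.mem_map.1 hp
    have hq' := mem_zip_drop _ _ _ _ hq
    exact ⟨ha.2.1 _ hq', fun hT => h1 _ hq' hT⟩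
  · obtain ⟨⟨d, y⟩, hq, rfl⟩ := List.mem_map.1 hp
    have hq' := mem_zip_drop _ _ _ _ hq
    exact ⟨hb.2.1 _ hq', fun hT => h2 _ hq' hT⟩

theorem key (A B : Pole) (s : ℕ) (c : (A.join B s).V → Fin 3 → ℕ) (a b : St)
    (ha : Cov A (fun x => c (Sum.inl x)) a) (hb : Cov B (fun x => c (Sum.inr x)) b)
    (lab : (A.join B s).V → ℕ)
    (h1 : ∀ x ∈ A.D.zip a, isT x.2.1 = true → lab (Sum.inl x.1.1) = unite (prs s a b) x.2.2)
    (h2 : ∀ x ∈ B.D.zip b, isT x.2.1 = true →
      lab (Sum.inr x.1.1) = unite (prs s a b) (x.2.2 + 8)) :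
    ∀ p ∈ (A.join B s).D.zip (mrg s a b), c p.1.1 p.1.2 = p.2.1 ∧
      (isT p.2.1 = true → lab p.1.1 = p.2.2) :=
  keyAux A B s c a b ha hb lab h1 h2

theorem x (h1 : S_CRS) (h2 : S_VAL) (h3 : S_REA) (h4 : S_LAB) : S_JOIN := by
  intro A B s SA SB S hsA hsB hA hB hyp c hc hr
  obtain ⟨hcA, hcB, hM⟩ := h2 A B s c hc
  have hrA : Reach A (fun x => c (Sum.inl x)) :=
    (h3 A B s c hc).1 fun x => Or.inl (hr (Sum.inl x))
  have hrB : Reach B (fun x => c (Sum.inr x)) :=
    (h3 A B s c hc).2 fun x => Or.inl (hr (Sum.inr x))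
  obtain ⟨a, hSa, ha⟩ := hA _ hcA hrA
  obtain ⟨b, hSb, hb⟩ := hB _ hcB hrB
  have hm := hM a b ha hb
  obtain ⟨lab, l1, l2, l3⟩ := h4 A B s c a b hc hrA hrB ha hb
  have hk := key A B s c a b ha hb lab l1 l2
  have hlen := length_eq A B s a b ha.1 hb.1
  have hfind : ∀ v : (A.join B s).V, ∃ y ∈ mrg s a b, isT y.1 = true ∧ y.2 = lab v := by
    intro v
    obtain ⟨d', hd', hT, hconn⟩ := hr v
    obtain ⟨y, hy⟩ := zip_left (A.join B s).D (mrg s a b) hlen.symm d' hd'
    have hky := hk _ hy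
    have hT' : isT y.1 = true := by rw [← hky.1]; exact hT
    exact ⟨y, (List.of_mem_zip hy).2, hT', by rw [← hky.2 hT', l3 _ _ hconn]⟩
  have hopn : Opn s a b := by
    constructor
    · intro x hx hT
      obtain ⟨d, hd⟩ := zip_right A.D a ha.1.symm x hx
      obtain ⟨y, hy, hyT, hyl⟩ := hfind (Sum.inl d.1)
      exact ⟨y, hy, hyT, by rw [hyl]; exact l1 _ hd hT⟩
    · intro x hx hT
      obtain ⟨d, hd⟩ := zip_right B.D b hb.1.symm x hx
      obtain ⟨y, hy, hyT, hyl⟩ := hfind (Sum.inr d.1)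
      exact ⟨y, hy, hyT, by rw [hyl]; exact l2 _ hd hT⟩
  obtain ⟨t, hSt, ht⟩ := hyp a b hSa hSb (by rw [ha.1]; exact hsA) (by rw [hb.1]; exact hsB) hm hopn
  refine ⟨t, hSt, h1 _ c _ t ⟨hlen, fun x hx => (hk x hx).1, ?_⟩ ht⟩
  intro x hx y hy hxT hyT hconn
  rw [← (hk x hx).2 hxT, ← (hk y hy).2 hyT]
  exact l3 _ _ hconn

theorem y (h2 : S_VAL) (h3 : S_REA) (h4 : S_LAB) : S_CLOSE := by
  intro A B s SA SB hsA hsB hnA hnB hA hB hyp c hc hall
  obtain ⟨hcA, hcB, hM⟩ := h2 A B s c hc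
  obtain ⟨a0⟩ := hnA
  obtain ⟨b0⟩ := hnB
  have hrA : Reach A (fun x => c (Sum.inl x)) :=
    (h3 A B s c hc).1 fun x => Or.inr ⟨b0, hall _ _⟩
  have hrB : Reach B (fun x => c (Sum.inr x)) :=
    (h3 A B s c hc).2 fun x => Or.inr ⟨a0, hall _ _⟩
  obtain ⟨a, hSa, ha⟩ := hA _ hcA hrA
  obtain ⟨b, hSb, hb⟩ := hB _ hcB hrB
  have hm := hM a b ha hb
  obtain ⟨lab, l1, l2, l3⟩ := h4 A B s c a b hc hrA hrB ha hb
  obtain ⟨x, hx, y, hy, hxT, hyT, hne⟩ := hyp a b hSa hSb (by rw [ha.1, hsA]) (by rw [hb.1, hsB]) hm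
  obtain ⟨d, hd⟩ := zip_right A.D a ha.1.symm x hx
  obtain ⟨d', hd'⟩ := zip_right A.D a ha.1.symm y hy
  apply hne
  have e1 : lab (Sum.inl d.1) = unite (prs s a b) x.2 := l1 _ hd hxT
  have e2 : lab (Sum.inl d'.1) = unite (prs s a b) y.2 := l1 _ hd' hyT
  rw [← e1, ← e2]
  exact l3 _ _ (hall _ _)

end Pool.Agent.W597.NS
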